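import Pool.Agent.H356R3.LV.Lev961
import Pool.Agent.H356R3.LV.Top2
import Pool.Agent.H356R3.LV.WMP
import Pool.Agent.H356R3.LV.SUBM
import Pool.Agent.H356R3.LV.PI
import Pool.Agent.H356R3.LV.VAN
import Pool.Agent.H356R3.LV.HG
import Pool.Agent.H356R3.LV.PT
import Pool.Agent.H356R3.LV.HK
import Pool.Agent.H356R3.LV.DC
import Pool.Agent.H356R3.LV.BDD
import Pool.Agent.H356R3.LV.GROW
import Pool.Agent.H356R3.LV.GJ1
import Pool.Agent.H356R3.LV.GJ2
import Pool.Agent.H356R3.LV.GJ3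
import Pool.Agent.H356R3.LV.UTA
import Pool.Agent.H356R3.LV.UTR
import Pool.Agent.H356R3.LV.UTP
import Pool.Agent.H356R3.LV.TRN
import Pool.Agent.H356R3.LV.SCL
import Pool.Agent.H356R3.LV.XG
import Pool.Agent.H356R3.LV.XH
import Pool.Agent.H356R3.LV.XR
import Pool.Agent.H356R3.LV.XU
import Pool.Agent.H356R3.LV.XA
import Pool.Agent.H356R3.LV.XB
import Pool.Agent.H356R3.LV.XC
import Pool.Agent.H356R3.LV.XM0
import Pool.Agent.H356R3.LV.XP
import Pool.Agent.H356R3.LV.XS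
import Pool.Agent.H356R3.LV.XT
import Pool.Agent.H356R3.LV.UQ4

/-!
# The constant `C(N, δ)` and the extremal sets

For all `0 < δ < N`: the value of `C(N, δ)`, the sets for which the value is attained at a point
of the line (exactly the translates of the periodic set), and the failure of uniqueness for the
supremum.
-/

set_option autoImplicit false
open MeasureTheory Set Filter Topology Complex InnerProductSpace

namespace Pool.Agent.Results.MP_cebbdc_an.LevinConstant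

/-- Closed subsets `E` of the line such that every interval of length `N` meets `E` in a set of
Lebesgue measure at least `δ`. -/
structure RelDense (N δ : ℝ) (E : Set ℝ) : Prop where
  closed : IsClosed E
  meas : ∀ a : ℝ, ENNReal.ofReal δ ≤ volume (E ∩ Icc a (a + N))

/-- `U` is the function `U_E`: it is continuous on the plane, vanishes on `E`, is positive and
harmonic off `E`, symmetric with respect to the real line, and normalised by `U(iy)/y → 1`. -/
structure IsUE (E : Set ℝ) (U : ℂ → ℝ) : Prop where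
  cont : Continuous U
  zero : ∀ x ∈ E, U (x : ℂ) = 0
  pos : ∀ z : ℂ, z ∉ (fun x : ℝ => (x : ℂ)) '' E → 0 < U z
  harm : HarmonicOnNhd U ((fun x : ℝ => (x : ℂ)) '' E)ᶜ
  symm : ∀ z : ℂ, U ((starRingEnd ℂ) z) = U z
  norm : Tendsto (fun y : ℝ => U (y * I) / y) atTop (𝓝 1)

/-- The periodic set: the union of the intervals `[nN - δ/2, nN + δ/2]`, `n ∈ ℤ`. -/
def perSet (N δ : ℝ) : Set ℝ := ⋃ n : ℤ, Icc (n * N - δ / 2) (n * N + δ / 2)

/-- The values `U_E(x)`, over all relatively dense `E` that have a function `U_E` and all real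
`x`. The constant `C(N, δ)` is the supremum of this set. -/
def values (N δ : ℝ) : Set ℝ :=
  {y | ∃ (E : Set ℝ) (U : ℂ → ℝ) (x : ℝ), RelDense N δ E ∧ IsUE E U ∧ U x = y}

theorem perSet_eq (N δ : ℝ) : perSet N δ = {x : ℝ | ∃ n : ℤ, |x - n * N| ≤ δ / 2} := by
  ext x
  simp only [perSet, mem_iUnion, mem_Icc, mem_ofPred_eq, abs_le]
  refine exists_congr fun n => ⟨fun h => ⟨by linarith [h.1], by linarith [h.2]⟩,
    fun h => ⟨by linarith [h.1], by linarith [h.2]⟩⟩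

theorem rd961 {N δ : ℝ} {E : Set ℝ} (h : RelDense N δ E) : H961Lev.RDN N δ E := ⟨h.1, h.2⟩
theorem lev961 {E : Set ℝ} {U : ℂ → ℝ} (h : IsUE E U) : H961Lev.IsLevin E U :=
  ⟨h.1, h.2, h.3, h.4, h.5, h.6⟩

/-- **The constant and the extremal sets.** -/
theorem result (N δ : ℝ) (hδ : 0 < δ) (hN : δ < N) :
    IsGreatest (values N δ) (N / Real.pi * Real.log (Real.cot (Real.pi * δ / (4 * N)))) ∧
    sSup (values N δ) = N / Real.pi * Real.log (Real.cot (Real.pi * δ / (4 * N))) ∧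
    (RelDense N δ (perSet N δ) ∧ ∃ U : ℂ → ℝ, IsUE (perSet N δ) U ∧
      IsGreatest (range fun x : ℝ => U (x : ℂ))
        (N / Real.pi * Real.log (Real.cot (Real.pi * δ / (4 * N))))) ∧
    (∀ (E : Set ℝ) (U : ℂ → ℝ), RelDense N δ E → IsUE E U →
      ((∃ x : ℝ, U x = N / Real.pi * Real.log (Real.cot (Real.pi * δ / (4 * N)))) ↔
        ∃ t : ℝ, E = {s : ℝ | s - t ∈ perSet N δ})) ∧
    ∃ (E : Set ℝ) (U : ℂ → ℝ), RelDense N δ E ∧ IsUE E U ∧
      IsLUB (range fun x : ℝ => U (x : ℂ))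
        (N / Real.pi * Real.log (Real.cot (Real.pi * δ / (4 * N)))) ∧
      (∀ x : ℝ, U x < N / Real.pi * Real.log (Real.cot (Real.pi * δ / (4 * N)))) ∧
      ¬ ∃ t : ℝ, E = {s : ℝ | s - t ∈ perSet N δ} := by
  have hGJ1 := Pool.Agent.H356R3.LV.GJ1_proof
  have hGJ2 := Pool.Agent.H356R3.LV.GJ2_proof hGJ1
  have hGJ3 := Pool.Agent.H356R3.LV.GJ3_proof
  have hWMP := Pool.Agent.H356R3.LV.WMP_proof
  have hSUBM := Pool.Agent.H356R3.LV.SUBM_proof hWMP
  have hHG := Pool.Agent.H356R3.LV.HG_proof hWMP Pool.Agent.H356R3.LV.PI_proof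
    Pool.Agent.H356R3.LV.VAN_proof
  have hPT := Pool.Agent.H356R3.LV.PT_proof hHG hSUBM
  have hHK := Pool.Agent.H356R3.LV.HK_proof hHG
  have hDC := Pool.Agent.H356R3.LV.DC_proof hWMP
  have hBDD := Pool.Agent.H356R3.LV.BDD_proof hHG hPT hHK hDC
  have hGROW := Pool.Agent.H356R3.LV.GROW_proof hHG
  have hUTA := Pool.Agent.H356R3.LV.UTA_proof hGJ1 hGJ2
  have hUTR := Pool.Agent.H356R3.LV.UTR_proof
  have hUTP := Pool.Agent.H356R3.LV.UTP_proof hGJ1 hGJ3
  have hTRN := Pool.Agent.H356R3.LV.TRN_proof hHG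
  have hSCL := Pool.Agent.H356R3.LV.SCL_proof
  have hUQ4 := Pool.Agent.H356R3.LV.UQ4_proof hWMP hHG hGJ1 hGJ2 hUTR
  have hXG := Pool.Agent.H356R3.LV.XG_proof
  have hXH := Pool.Agent.H356R3.LV.XH_proof hXG
  have hXR := Pool.Agent.H356R3.LV.XR_proof hXG hXH
  have hXU := Pool.Agent.H356R3.LV.XU_proof hGJ1 hGJ2 hXG hXR
  have hXC := Pool.Agent.H356R3.LV.XC_proof hXG
  have hXS := Pool.Agent.H356R3.LV.XS_proof hGJ1 hGJ3 hXG hXC
  have hXT := Pool.Agent.H356R3.LV.XT_proof hXU Pool.Agent.H356R3.LV.XA_proof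
    Pool.Agent.H356R3.LV.XB_proof hXC Pool.Agent.H356R3.LV.XM0_proof
    Pool.Agent.H356R3.LV.XP_proof hXS hXG
  obtain ⟨hbd, ⟨hper, Up, hUp, hval⟩, huniq⟩ := Pool.Agent.H356R3.Lev961.full961 N δ hδ hN
  have hN0 : 0 < N := hδ.trans hN
  have hper' : RelDense N δ (perSet N δ) := by
    rw [perSet_eq]; exact ⟨hper.1, hper.2⟩
  have hUp' : IsUE (perSet N δ) Up := by
    rw [perSet_eq]; exact ⟨hUp.1, hUp.2, hUp.3, hUp.4, hUp.5, hUp.6⟩
  have hG : IsGreatest (values N δ)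
      (N / Real.pi * Real.log (Real.cot (Real.pi * δ / (4 * N)))) := by
    refine ⟨⟨perSet N δ, Up, N / 2, hper', hUp', ?_⟩, ?_⟩
    · push_cast; exact hval
    · rintro y ⟨E, U, x, hE, hU, rfl⟩
      exact hbd E U (rd961 hE) (lev961 hU) x
  refine ⟨hG, hG.csSup_eq, ⟨hper', Up, hUp', ⟨N / 2, ?_⟩, ?_⟩, ?_, ?_⟩
  · push_cast; exact hval
  · rintro _ ⟨x, rfl⟩
    exact hbd _ Up hper hUp x
  · intro E U hE hU
    constructor
    · rintro ⟨x, hx⟩
      refine ⟨x + N / 2, ?_⟩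
      rw [huniq E U x (rd961 hE) (lev961 hU) hx, perSet_eq]
      ext s
      simp only [mem_ofPred_eq]
      refine exists_congr fun n => ?_
      rw [show s - (x + N / 2 + n * N) = s - (x + N / 2) - n * N by ring]
    · rintro ⟨t, ht⟩
      -- scale to the unit case
      have hd0 : 0 < δ / N := div_pos hδ hN0
      have hd1 : δ / N < 1 := (div_lt_one hN0).2 hN
      have hE1 : Pool.Agent.H356R3.LV.Rel N δ E := ⟨hE.1, hE.2⟩
      have hU1 : Pool.Agent.H356R3.LV.IsU E U := ⟨hU.1, hU.2, hU.3, hU.4, hU.5, hU.6⟩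
      have g1 := Pool.Agent.H356R3.LV.TopL.Rel_scale hN0 hE1
      rw [div_self hN0.ne'] at g1
      have g2 := hSCL E U N hN0 hU1
      obtain ⟨x, hx⟩ := Pool.Agent.H356R3.LV.TopL.translate_attains hUTA hUTR hUTP hUQ4 hBDD
        hGROW hTRN hd0 hd1 _ _ g1 g2 ⟨t / N, by
          ext s
          simp only [mem_ofPred_eq]
          rw [Pool.Agent.H356R3.LV.TopL.perSet_scale hN0, ht]
          simp only [mem_ofPred_eq]
          rw [show N * (s - t / N) = N * s - t by field_simp]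
          rfl⟩
      refine ⟨N * x, ?_⟩
      have hv := Pool.Agent.H356R3.LV.TopL.value hUTP hδ hN
      rw [← hv, ← hx]
      push_cast
      field_simp
  · obtain ⟨E, U, h1, h2, h3, h4, h5⟩ := Pool.Agent.H356R3.LV.TopL.top2 hUTA hUTR hUTP hUQ4 hBDD
      hGROW hTRN hSCL hXT hδ hN
    exact ⟨E, U, ⟨h1.1, h1.2⟩, ⟨h2.1, h2.2, h2.3, h2.4, h2.5, h2.6⟩, h3, h4, h5⟩

end Pool.Agent.Results.MP_cebbdc_an.LevinConstant
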